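import Pool.Agent.SZG.StmtsW

/-!
SZG, row ORB (doubling orbit).
-/

set_option autoImplicit false

namespace Pool.Agent.SZG.H65

open Pool.Agent.SZG

theorem orb : OrbStmt := by
  intro I _ E h hE hp i
  have hNZ : NeZero E := ⟨hE.ne'⟩
  obtain ⟨a, b, hab, he⟩ :=
    Finite.exists_ne_map_eq_of_infinite (fun n : ℕ => ((2 ^ n : ℕ) : ZMod E))
  have key : ∀ m n : ℕ, m < n → ((2 ^ m : ℕ) : ZMod E) = ((2 ^ n : ℕ) : ZMod E) →
      ∃ m n : ℕ, m < n ∧ h (2 ^ n • i) = h (2 ^ m • i) := by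
    intro m n hmn hmn'
    have h1 : 2 ^ m ≡ 2 ^ n [MOD E] := (ZMod.natCast_eq_natCast_iff _ _ _).1 hmn'
    have hle : 2 ^ m ≤ 2 ^ n := Nat.pow_le_pow_right (by norm_num) hmn.le
    obtain ⟨q, hq⟩ := (Nat.modEq_iff_dvd' hle).1 h1
    refine ⟨m, n, hmn, ?_⟩
    have h2 : 2 ^ n = 2 ^ m + E * q := by omega
    have h3 : 2 ^ n • i = 2 ^ m • i + E • (q • i) := by
      rw [h2, add_smul, mul_smul]
    rw [h3, hp]
  rcases lt_or_gt_of_ne hab with hlt | hlt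
  · exact key a b hlt he
  · exact key b a hlt he.symm

end Pool.Agent.SZG.H65
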